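import Mathlib
import Pool.Agent.Helper872.RN.Transfer
import Pool.Agent.Helper872.RN.Force
import Pool.Agent.R634.HLoc.Main

/-!
# It is consistent that `H^d` on `[0,1]` is not semilocalizable, for all `0 < d < 1` at once

The measure algebra `P` which adds more than the continuum many random reals forces
`non(N) ≤ |K| < cov(N)` for the set `K` of the subsets of `ω` of the ground model (Cantor space;
null sets are coded). This inequality passes to the real line by the binary expansion map, and there
it implies that for every `0 < d < 1` the measure space `([0,1], A_{H^d}, H^d)` is not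
semilocalizable.

* `PhiHolds P K` is the translation into the forcing language of the proposition `PhiFor K`; a
  sentence of the forcing language is the set of the conditions which force it.
* `X` is the unit interval as a metric space, `μH[d]` its `d`-dimensional Hausdorff (outer) measure,
  `Semilocalizable d` says that every family of Carathéodory `H^d`-measurable sets has a supremum
  modulo locally null sets.
* `nonN`, `covN`: the uniformity and covering numbers of the Lebesgue null ideal of `ℝ`.
-/

set_option autoImplicit false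

namespace Pool.Agent.Results.MP_09a4e8_an.ForcedNotSemilocalizable

open Cardinal MeasureTheory Pool.Agent.V11242.RN Pool.Agent.R634.HLoc

theorem nonN_le {K : Type} (h : PhiFor K) : nonN ≤ #K := by
  obtain ⟨Y, h1, h2⟩ := Pool.Agent.Helper872.RN.exists_not_null h
  have h3 : nonN ≤ #Y := csInf_le' ⟨Y, rfl, h2⟩
  exact h3.trans h1

theorem lt_covN {K : Type} (h : PhiFor K) : #K < covN := by
  have hne : {c : Cardinal.{0} | ∃ 𝒞 : Set (Set ℝ), #𝒞 = c ∧ (∀ C ∈ 𝒞, volume C = 0) ∧
      ⋃₀ 𝒞 = Set.univ}.Nonempty := by
    refine ⟨_, Set.range fun x : ℝ => ({x} : Set ℝ), rfl, ?_, ?_⟩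
    · rintro _ ⟨x, rfl⟩
      exact measure_singleton x
    · refine Set.eq_univ_of_forall fun x => ⟨{x}, ⟨x, rfl⟩, rfl⟩
  obtain ⟨𝒞, h1, h2, h3⟩ := csInf_mem hne
  rw [covN, ← h1]
  by_contra hlt
  obtain ⟨x, -, hx⟩ := Pool.Agent.Helper872.RN.exists_not_covered h h2 (not_lt.1 hlt)
  have h4 : x ∈ ⋃₀ 𝒞 := by rw [h3]; exact Set.mem_univ x
  obtain ⟨C, hC, hxC⟩ := h4
  exact hx C hC hxC

/-- (1) There are a set `K` and a nonempty ccc notion of forcing `P` all of whose conditions force
the sentence `PhiFor K`. (2) Whenever `PhiFor K` holds, `non(N) ≤ |K| < cov(N)` for the line, and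
for every real `0 < d < 1` the measure space `([0,1], A_{H^d}, H^d)` is not semilocalizable. -/
theorem result :
    (∃ (K P : Type) (_ : Preorder P), Nonempty P ∧
      (∀ A : Set P, (∀ p ∈ A, ∀ q ∈ A, p ≠ q → ¬ ∃ r, r ≤ p ∧ r ≤ q) → A.Countable) ∧
      ∀ p : P, p ∈ PhiHolds P K) ∧
    (∀ K : Type, PhiFor K → nonN ≤ #K ∧ #K < covN ∧
      ∀ d : ℝ, 0 < d → d < 1 → ¬ Semilocalizable d) :=
  ⟨Pool.Agent.Helper872.RN.exists_forcing, fun _ h => ⟨nonN_le h, lt_covN h,
    fun d hd hd1 => main ((nonN_le h).trans_lt (lt_covN h)) d hd hd1⟩⟩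

end Pool.Agent.Results.MP_09a4e8_an.ForcedNotSemilocalizable
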